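import Pool.Agent.Helper23.EC.DGoalsA

/-!
# Packet B4: summability of the majorants
-/

set_option autoImplicit false

open MeasureTheory Filter Topology Set

namespace Pool.Agent.Helper63.EC.D_B4

open EC237

theorem pw_nonneg (k : ℤ × ℤ) : 0 ≤ pw k := Real.rpow_nonneg (Real.sqrt_nonneg _) _

/-- one-dimensional majorant -/
noncomputable def on (n : ℤ) : ℝ := (1 + |(n:ℝ)|) ^ (-(5 / 4) : ℝ)

theorem on_nonneg (n : ℤ) : 0 ≤ on n := Real.rpow_nonneg (by positivity) _

theorem on_sum : Summable on := by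
  have h1 : Summable (fun n : ℤ => |(n:ℝ)| ^ (-(5 / 4) : ℝ)) :=
    Real.summable_abs_int_rpow (by norm_num)
  have h2 : Summable (fun n : ℤ => if n = 0 then (1:ℝ) else 0) := by
    apply summable_of_ne_finset_zero (s := {0})
    intro b hb
    simp only [Finset.mem_singleton] at hb
    simp [hb]
  refine Summable.of_nonneg_of_le on_nonneg (fun n => ?_) (h1.add h2)
  by_cases hn : n = 0
  · subst hn
    simp [on]
  · rw [if_neg hn, add_zero]
    unfold on
    have : 0 < |(n:ℝ)| := by positivity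
    exact Real.rpow_le_rpow_of_nonpos this (by linarith) (by norm_num)

theorem pw_le (k : ℤ × ℤ) : pw k ≤ 9 ^ (5 / 4 : ℝ) * (on k.1 * on k.2) := by
  by_cases hk : k = 0
  · subst hk
    have : pw 0 = 0 := by
      unfold pw rk
      simp
    rw [this]
    have := on_nonneg (0 : ℤ × ℤ).1
    have := on_nonneg (0 : ℤ × ℤ).2
    positivity
  · obtain ⟨n, m⟩ := k
    unfold pw rk on
    simp only
    set S : ℝ := (n:ℝ) ^ 2 + (m:ℝ) ^ 2 with hS
    have hS1 : 1 ≤ S := by
      have h : (1:ℤ) ≤ n ^ 2 + m ^ 2 := by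
        by_contra hcon
        have h0 : n ^ 2 + m ^ 2 = 0 := by
          have := sq_nonneg n
          have := sq_nonneg m
          omega
        have hn : n = 0 := by nlinarith [sq_nonneg n, sq_nonneg m]
        have hm : m = 0 := by nlinarith [sq_nonneg n, sq_nonneg m]
        exact hk (by rw [hn, hm]; rfl)
      rw [hS]
      exact_mod_cast h
    have hS0 : 0 ≤ S := by linarith
    have e1 : Real.sqrt S ^ (-(5 / 2) : ℝ) = S ^ (-(5 / 4) : ℝ) := by
      rw [Real.sqrt_eq_rpow, ← Real.rpow_mul hS0]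
      norm_num
    have hle : (1 + |(n:ℝ)|) * (1 + |(m:ℝ)|) / 9 ≤ S := by
      have a1 : |(n:ℝ)| ^ 2 = (n:ℝ) ^ 2 := sq_abs _
      have a2 : |(m:ℝ)| ^ 2 = (m:ℝ) ^ 2 := sq_abs _
      rw [hS] at hS1 ⊢
      rw [← a1, ← a2] at hS1 ⊢
      nlinarith [sq_nonneg (|(n:ℝ)| - 1), sq_nonneg (|(m:ℝ)| - 1), sq_nonneg (|(n:ℝ)| - |(m:ℝ)|)]
    have hpos : 0 < (1 + |(n:ℝ)|) * (1 + |(m:ℝ)|) / 9 := by positivity
    rw [e1]
    calc S ^ (-(5 / 4) : ℝ) ≤ ((1 + |(n:ℝ)|) * (1 + |(m:ℝ)|) / 9) ^ (-(5 / 4) : ℝ) :=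
          Real.rpow_le_rpow_of_nonpos hpos hle (by norm_num)
      _ = 9 ^ (5 / 4 : ℝ) * ((1 + |(n:ℝ)|) ^ (-(5 / 4) : ℝ) * (1 + |(m:ℝ)|) ^ (-(5 / 4) : ℝ)) := by
          rw [Real.div_rpow (by positivity) (by norm_num), Real.mul_rpow (by positivity)
            (by positivity)]
          rw [show (9:ℝ) ^ (-(5 / 4) : ℝ) = (9 ^ (5 / 4 : ℝ))⁻¹ from Real.rpow_neg (by norm_num) _]
          rw [div_inv_eq_mul]
          ring

theorem pw_sum : Summable pw := by
  have h : Summable (fun k : ℤ × ℤ => on k.1 * on k.2) :=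
    on_sum.mul_of_nonneg on_sum on_nonneg on_nonneg
  exact Summable.of_nonneg_of_le pw_nonneg pw_le (h.mul_left _)

/-- the product on pairs -/
theorem g2_sum : Summable (fun q : (ℤ × ℤ) × (ℤ × ℤ) => pw q.1 * pw q.2) :=
  pw_sum.mul_of_nonneg pw_sum pw_nonneg pw_nonneg

/-- the product on triples -/
theorem g3_sum : Summable (fun p : Tri => pw p.1 * (pw p.2.1 * pw p.2.2)) :=
  pw_sum.mul_of_nonneg g2_sum pw_nonneg (fun _ => mul_nonneg (pw_nonneg _) (pw_nonneg _))

theorem comp3 {i : Tri → Tri} (hi : Function.Injective i) :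
    Summable (fun p : Tri => pw (i p).1 * (pw (i p).2.1 * pw (i p).2.2)) :=
  g3_sum.comp_injective hi

theorem comp2 {i : (ℤ × ℤ) × (ℤ × ℤ) → (ℤ × ℤ) × (ℤ × ℤ)} (hi : Function.Injective i) :
    Summable (fun p : (ℤ × ℤ) × (ℤ × ℤ) => pw (i p).1 * pw (i p).2) :=
  g2_sum.comp_injective hi

theorem thm : EC237.B4 := by
  refine ⟨pw_sum, ?_, ?_, ?_⟩
  · have s1 := comp3 (i := fun p => (p.1 + p.2.1, p.1, p.2.2)) (by
      rintro ⟨a, b, c⟩ ⟨a', b', c'⟩ h
      simp only [Prod.mk.injEq] at h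
      obtain ⟨h1, h2, h3⟩ := h
      subst h2 h3
      rw [add_left_cancel h1])
    have s2 := comp3 (i := fun p => (p.1 + p.2.1, p.1, k4 p)) (by
      rintro ⟨a, b, c⟩ ⟨a', b', c'⟩ h
      simp only [Prod.mk.injEq, k4] at h
      obtain ⟨h1, h2, h3⟩ := h
      subst h2
      have h4 := add_left_cancel h1
      subst h4
      rw [add_left_cancel (neg_injective h3)])
    have s3 := comp3 (i := fun p => (p.1 + p.2.1, p.2.1, p.2.2)) (by
      rintro ⟨a, b, c⟩ ⟨a', b', c'⟩ h
      simp only [Prod.mk.injEq] at h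
      obtain ⟨h1, h2, h3⟩ := h
      subst h2 h3
      rw [add_right_cancel h1])
    have s4 := comp3 (i := fun p => (p.1 + p.2.1, p.2.1, k4 p)) (by
      rintro ⟨a, b, c⟩ ⟨a', b', c'⟩ h
      simp only [Prod.mk.injEq, k4] at h
      obtain ⟨h1, h2, h3⟩ := h
      subst h2
      have h4 := add_right_cancel h1
      subst h4
      rw [add_left_cancel (neg_injective h3)])
    refine (((s1.add s2).add (s3.add s4))).congr fun p => ?_
    simp only
    ring
  · have s1 := comp3 (i := fun p => (p.2.1 + p.2.2, p.2.1, k4 p)) (by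
      rintro ⟨a, b, c⟩ ⟨a', b', c'⟩ h
      simp only [Prod.mk.injEq, k4] at h
      obtain ⟨h1, h2, h3⟩ := h
      subst h2
      have h4 := add_left_cancel h1
      subst h4
      have h5 := neg_injective h3
      have h6 := add_right_cancel (add_right_cancel h5)
      rw [h6])
    have s2 := comp3 (i := fun p => (p.2.1 + p.2.2, p.2.1, p.1)) (by
      rintro ⟨a, b, c⟩ ⟨a', b', c'⟩ h
      simp only [Prod.mk.injEq] at h
      obtain ⟨h1, h2, h3⟩ := h
      subst h2 h3
      rw [add_left_cancel h1])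
    have s3 := comp3 (i := fun p => (p.2.1 + p.2.2, p.2.2, k4 p)) (by
      rintro ⟨a, b, c⟩ ⟨a', b', c'⟩ h
      simp only [Prod.mk.injEq, k4] at h
      obtain ⟨h1, h2, h3⟩ := h
      subst h2
      have h4 := add_right_cancel h1
      subst h4
      have h5 := neg_injective h3
      have h6 := add_right_cancel (add_right_cancel h5)
      rw [h6])
    have s4 := comp3 (i := fun p => (p.2.1 + p.2.2, p.2.2, p.1)) (by
      rintro ⟨a, b, c⟩ ⟨a', b', c'⟩ h
      simp only [Prod.mk.injEq] at h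
      obtain ⟨h1, h2, h3⟩ := h
      subst h2 h3
      rw [add_right_cancel h1])
    refine (((s1.add s2).add (s3.add s4))).congr fun p => ?_
    simp only
    ring
  · have s1 := comp2 (i := fun p => (p.1, p.2)) (fun a b h => h)
    have s2 := comp2 (i := fun p => (p.1, p.1 + p.2)) (by
      rintro ⟨a, b⟩ ⟨a', b'⟩ h
      simp only [Prod.mk.injEq] at h
      obtain ⟨h1, h2⟩ := h
      subst h1
      rw [add_left_cancel h2])
    have s3 := comp2 (i := fun p => (p.2, p.1 + p.2)) (by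
      rintro ⟨a, b⟩ ⟨a', b'⟩ h
      simp only [Prod.mk.injEq] at h
      obtain ⟨h1, h2⟩ := h
      subst h1
      rw [add_right_cancel h2])
    exact (s1.add s2).add s3

end Pool.Agent.Helper63.EC.D_B4
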